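import Pool.Agent.Helper98.GX.St4
import Pool.Agent.Helper53.CX.M_Ext
import Pool.Agent.Helper53.CX.M_Mon
import Pool.Agent.Helper53.CX.M_Pad
import Pool.Agent.Helper53.CX.M_PadV
import Pool.Agent.Helper53.CX.M_Fac
import Pool.Agent.Helper53.CX.M_TorV
import Pool.Agent.Helper53.CX.M_Norm
import Pool.Agent.Helper53.CX.M_Deg
import Pool.Agent.Helper53.CX.M_Poly

/-!
# Project GX (MP_140278_ag), module POL: nef b-divisors of multidegree `e_k` on a product of
projective spaces are `PolyNef`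
-/

set_option autoImplicit false

open scoped BigOperators

namespace Pool.Agent.Helper60.GX

section CX

open Pool.Agent.Helper53.CX
open MvPolynomial

private lemma norm_of_nef (hExt : StExt) (hPad : StPad) (hPadV : StPadV) (hFac : StFac) {n : ℕ}
    {M : DivVal (Kn n) → ℤ}
    (hM0 : ∀ (P : Pn n) (v : DivVal (Kn n)), TorusPrime P → v.ord = padOrd P → M v = 0)
    (hM : IsNefCartier M) : NormNef M := by
  classical
  obtain ⟨A, hA⟩ := hM
  obtain ⟨Q, hQ1, hQ2, hQ3⟩ := hFac n A.gens A.ne_zero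
  have hcA : ∀ P v, TorusPrime P → v.ord = padOrd P → (∀ P' ∈ Q, ¬ Associated P P') →
      A.div v = 0 := by
    intro P v hP hv hn
    have h0 : ∀ f ∈ A.gens, v.ord f = 0 := by
      intro f hf
      rw [hv]
      exact (hQ3 f hf).2 P hP hn
    rw [Norm_div_eq]
    obtain ⟨f, hf⟩ := A.nonempty
    exact ⟨fun g hg => by rw [h0 g hg]; simp, f, hf, by rw [h0 f hf]; simp⟩
  set hA' := Norm_fun Q A.div with hhA
  have hAne : hA' ≠ 0 := Norm_fun_ne Q hQ1 A.div
  have hoA : ∀ P v, TorusPrime P → v.ord = padOrd P → v.ord hA' = A.div v :=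
    fun P v hP hv => Norm_fun_ord hExt hPad Q hQ1 hQ2 A.div hcA P v hP hv
  refine ⟨hM0, Norm_scale A hA' hAne, ?_, ?_⟩
  · intro g hg
    obtain ⟨f, hf, rfl⟩ := Norm_mem_scale.1 hg
    have hf0 := A.ne_zero f hf
    refine Norm_laurent hFac (mul_ne_zero hf0 hAne) ?_
    intro P hP
    obtain ⟨v, hv⟩ := (hPadV n P hP.1).1
    rw [← hv, v.ord_mul _ _ hf0 hAne, hoA P v hP hv]
    have := Norm_le_div A v hf
    omega
  · intro m hm
    obtain ⟨N, F, hN, hF⟩ := hA m hm
    have hHne : hA' ^ N ≠ 0 := pow_ne_zero _ hAne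
    refine ⟨N, Norm_scale F (hA' ^ N) hHne, hN, ?_, ?_⟩
    · intro g hg
      obtain ⟨f, hf, rfl⟩ := Norm_mem_scale.1 hg
      have hf0 := F.ne_zero f hf
      refine Norm_laurent hFac (mul_ne_zero hf0 hHne) ?_
      intro P hP
      obtain ⟨v, hv⟩ := (hPadV n P hP.1).1
      rw [← hv, v.ord_mul _ _ hf0 hHne, Norm_pow v hAne, hoA P v hP hv]
      have h1 := Norm_le_div F v hf
      have h2 := hF v
      rw [hM0 P v hP hv] at h2
      nlinarith
    · intro v
      rw [Norm_div_scale, Norm_div_scale, Norm_pow v hAne, ← hF v]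
      ring

private lemma mult_X {n : ℕ} (j : Fin n) {p : Pn n} (hp : p ≠ 0) :
    ((multiplicity (X j : Pn n) p : ℕ) : ℤ) = monO (Pi.single j 1) p := by
  classical
  have hne : p.support.Nonempty := by
    rwa [Finset.nonempty_iff_ne_empty, Ne, support_eq_empty]
  obtain ⟨m0, hm0, hmin⟩ := Finset.exists_mem_eq_inf' hne (wt (Pi.single j 1 : Fin n → ℤ))
  have hmon : monO (Pi.single j 1) p = (m0 j : ℤ) := by
    unfold monO
    rw [dif_pos hne, hmin, Deg_wt_single]
  have hle : ∀ m ∈ p.support, m0 j ≤ m j := by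
    intro m hm
    have h1 := Finset.inf'_le (wt (Pi.single j 1 : Fin n → ℤ)) hm
    rw [hmin, Deg_wt_single, Deg_wt_single] at h1
    exact_mod_cast h1
  rw [hmon]
  have h1 : (X j : Pn n) ^ (m0 j) ∣ p := by
    rw [X_pow_eq_monomial, monomial_one_dvd_iff_modMonomial_eq_zero]
    ext m
    rw [coeff_zero]
    by_cases hm : Finsupp.single j (m0 j) ≤ m
    · exact coeff_modMonomial_of_le _ hm
    · rw [coeff_modMonomial_of_not_le _ hm]
      by_contra hne'
      apply hm
      rw [Finsupp.single_le_iff]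
      exact hle m (mem_support_iff.2 hne')
  have h2 : ¬ (X j : Pn n) ^ (m0 j + 1) ∣ p := by
    rw [X_pow_eq_monomial, monomial_one_dvd_iff_modMonomial_eq_zero]
    intro h
    have h3 := congrArg (coeff m0) h
    rw [coeff_zero, coeff_modMonomial_of_not_le] at h3
    · exact (mem_support_iff.1 hm0) h3
    · rw [Finsupp.single_le_iff]
      omega
  rw [multiplicity_eq_of_dvd_of_not_dvd h1 h2]

private lemma extOrd_congr {n : ℕ} {o o' : Pn n → ℤ} (h : ∀ p, p ≠ 0 → o p = o' p) :
    extOrd o = extOrd o' := by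
  funext f
  unfold extOrd
  by_cases hf : f = 0
  · rw [if_pos hf, if_pos hf]
  · rw [if_neg hf, if_neg hf]
    have h2 : ((IsLocalization.sec (nonZeroDivisors (Pn n)) f).2 : Pn n) ≠ 0 :=
      nonZeroDivisors.ne_zero (IsLocalization.sec (nonZeroDivisors (Pn n)) f).2.2
    have h1 : (IsLocalization.sec (nonZeroDivisors (Pn n)) f).1 ≠ 0 := by
      intro h0
      have hs := IsLocalization.sec_spec (nonZeroDivisors (Pn n)) f
      rw [h0, map_zero] at hs
      rcases mul_eq_zero.1 hs with h3 | h3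
      · exact hf h3
      · exact Norm_alg_ne h2 h3
    rw [h _ h1, h _ h2]

private lemma pad_X {n : ℕ} (j : Fin n) :
    padOrd (X j : Pn n) = monOrd (Pi.single j 1 : Fin n → ℤ) :=
  extOrd_congr fun _ hp => mult_X j hp

/-- the weight of the block `l` -/
private def gw {n r : ℕ} (grp : Fin n → Fin r) (l : Fin r) : Fin n → ℤ :=
  fun j => if grp j = l then (-1 : ℤ) else 0

private lemma wt_sum {n r : ℕ} (grp : Fin n → Fin r) (m : Fin n →₀ ℕ) :
    wt (fun _ => (-1 : ℤ)) m = ∑ l, wt (gw grp l) m := by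
  unfold wt gw
  rw [Finset.sum_comm]
  refine Finset.sum_congr rfl fun j _ => ?_
  simp only [ite_mul, zero_mul]
  rw [Finset.sum_ite_eq]
  simp

private lemma wt_le {n r : ℕ} (grp : Fin n → Fin r) (l : Fin r) (m : Fin n →₀ ℕ) :
    wt (fun _ => (-1 : ℤ)) m ≤ wt (gw grp l) m := by
  unfold wt gw
  refine Finset.sum_le_sum fun j _ => ?_
  have h0 : (0 : ℤ) ≤ (m j : ℤ) := Int.natCast_nonneg _
  split_ifs
  · exact le_rfl
  · linarith

private lemma monO_le {n : ℕ} (a : Fin n → ℤ) {p : Pn n} {m : Fin n →₀ ℕ} (hm : m ∈ p.support) :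
    monO a p ≤ wt a m := by
  have hne : p.support.Nonempty := ⟨m, hm⟩
  unfold monO
  rw [dif_pos hne]
  exact Finset.inf'_le _ hm

private lemma monO_ex {n : ℕ} (a : Fin n → ℤ) {p : Pn n} (hp : p ≠ 0) :
    ∃ m ∈ p.support, monO a p = wt a m := by
  have hne : p.support.Nonempty := by
    rwa [Finset.nonempty_iff_ne_empty, Ne, support_eq_empty]
  obtain ⟨m0, hm0, hmin⟩ := Finset.exists_mem_eq_inf' hne (wt a)
  refine ⟨m0, hm0, ?_⟩
  unfold monO
  rw [dif_pos hne, hmin]

private lemma monO_sum {n r : ℕ} (grp : Fin n → Fin r) {p : Pn n} (hp : p ≠ 0) :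
    ∑ l, monO (gw grp l) p ≤ monO (fun _ => (-1 : ℤ)) p := by
  obtain ⟨m, hm, he⟩ := monO_ex (fun _ => (-1 : ℤ)) hp
  rw [he, wt_sum grp]
  exact Finset.sum_le_sum fun l _ => monO_le _ hm

private lemma monO_mono {n r : ℕ} (grp : Fin n → Fin r) (l : Fin r) {p : Pn n} (hp : p ≠ 0) :
    monO (fun _ => (-1 : ℤ)) p ≤ monO (gw grp l) p := by
  obtain ⟨m, hm, he⟩ := monO_ex (gw grp l) hp
  rw [he]
  exact (monO_le _ hm).trans (wt_le grp l m)

/-- an integer `d` with `m d ≤ C` for all `m ≥ 1` is at most `0` -/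
private lemma le_zero_of_mul {d C : ℤ} (h : ∀ m : ℕ, 1 ≤ m → (m : ℤ) * d ≤ C) : d ≤ 0 := by
  by_contra hd
  push Not at hd
  have h1 := h (C.natAbs + 1) (by omega)
  have h2 : ((C.natAbs + 1 : ℕ) : ℤ) ≤ ((C.natAbs + 1 : ℕ) : ℤ) * d := by
    nlinarith [Int.natCast_nonneg (C.natAbs + 1)]
  push_cast at h1 h2
  have h3 : C ≤ |C| := le_abs_self C
  linarith

private lemma main (n r : ℕ) (grp : Fin n → Fin r) (k : Fin r)
    (M : DivVal (Kn n) → ℤ) (hn : 0 < n) (hgrp : Function.Surjective grp)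
    (hM : IsNefCartier M)
    (hMP : ∀ (P : Pn n), Irreducible P → ∀ v : DivVal (Kn n), v.ord = padOrd P → M v = 0)
    (hMl : ∀ (l : Fin r) (v : DivVal (Kn n)), v.ord = monOrd (gw grp l) →
      M v = if l = k then 1 else 0) : PolyNef M := by
  classical
  have hTorV' : StTorV := hTorV hExt hMon
  have hPadV' : StPadV := hPadV hExt hPad
  have hFac' : StFac := hFac hExt hPad
  have hNN : NormNef M := norm_of_nef hExt hPad hPadV' hFac'
    (fun P v hP hv => hMP P hP.1 v hv) hM
  have hMe : ∀ (j : Fin n) (v : DivVal (Kn n)), v.ord = monOrd (Pi.single j 1) → M v = 0 := by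
    intro j v hv
    exact hMP (X j) (X_prime : Prime (X j : Pn n)).irreducible v (by rw [hv, pad_X])
  refine hPoly hExt hMon hTorV' n M hn hNN hMe ?_
  intro vi hvi
  -- the toric valuations
  have hpe : ∀ j : Fin n, ∑ i, (Pi.single j 1 : Fin n → ℤ) i * (Pi.single j 1 : Fin n → ℤ) i = 1 := by
    intro j
    rw [Finset.sum_eq_single j]
    · simp
    · intro i _ hi
      rw [Pi.single_eq_of_ne hi, mul_zero]
    · intro h
      exact absurd (Finset.mem_univ j) h
  have hve : ∀ j : Fin n, ∃ v : DivVal (Kn n), v.ord = monOrd (Pi.single j 1) := fun j =>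
    hTorV' n _ _ (hpe j)
  choose ve hve using hve
  have hvl : ∀ l : Fin r, ∃ v : DivVal (Kn n), v.ord = monOrd (gw grp l) := by
    intro l
    obtain ⟨j0, hj0⟩ := hgrp l
    refine hTorV' n _ (fun j => if j = j0 then -1 else 0) ?_
    unfold gw
    rw [Finset.sum_eq_single j0]
    · simp [hj0]
    · intro i _ hi
      rw [if_neg hi, mul_zero]
    · intro h
      exact absurd (Finset.mem_univ j0) h
  choose vl hvl using hvl
  have hvex : ∀ (u : Fin n → ℤ) (j : Fin n), (ve j).ord (xm u) = u j := by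
    intro u j
    rw [Sum_ord_xm, Finset.sum_eq_single j]
    · rw [hve j, Sum_monx hExt hMon]
      simp
    · intro k _ hk
      rw [hve j, Sum_monx hExt hMon, Pi.single_eq_of_ne hk, mul_zero]
    · intro h
      exact absurd (Finset.mem_univ j) h
  obtain ⟨-, A0, hA0, hAF⟩ := hNN
  set u : Fin n → ℤ := fun j => A0.div (ve j) with hu
  set A1 : LinSys (Kn n) := Norm_scale A0 (xm u) (Sum_xm_ne u) with hA1
  have hA1d : ∀ v, A1.div v = A0.div v - v.ord (xm u) := fun v => Norm_div_scale _ _ _ _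
  have hA1e : ∀ j, A1.div (ve j) = 0 := by
    intro j
    rw [hA1d, hvex, hu]
    ring
  -- the two inequalities
  have hineq : ∀ m : ℕ, 1 ≤ m →
      (m : ℤ) * M vi + A1.div vi ≤ m + ∑ l, A1.div (vl l) ∧
      (m : ℤ) + A1.div (vl k) ≤ (m : ℤ) * M vi + A1.div vi := by
    intro m hm
    obtain ⟨N, F0, hN, hF0, hNF⟩ := hAF m hm
    have hN0 : (0 : ℤ) < N := by exact_mod_cast hN
    set F1 : LinSys (Kn n) := Norm_scale F0 (xm ((N : ℤ) • u)) (Sum_xm_ne _) with hF1
    have hF1d : ∀ v, F1.div v = (N : ℤ) * ((m : ℤ) * M v + A1.div v) := by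
      intro v
      rw [hF1, Norm_div_scale, ← hNF v, Deg_xm_smul, hA1d]
      ring
    have hF1e : ∀ j, F1.div (ve j) = 0 := by
      intro j
      rw [hF1d, hA1e, hMe j _ (hve j)]
      ring
    have hF1p : ∀ f ∈ F1.gens, ∃ p : Pn n, p ≠ 0 ∧ f = algebraMap (Pn n) (Kn n) p := by
      intro g hg
      have hgL : IsLaurent g := by
        obtain ⟨f, hf, rfl⟩ := Norm_mem_scale.1 hg
        exact Deg_laurent_mul (hF0 f hf) _
      obtain ⟨p, hp⟩ := Poly_poly hExt hMon hgL (F1.ne_zero g hg) ve hve (fun j => by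
        have := Norm_le_div F1 (ve j) hg
        rw [hF1e j] at this
        omega)
      refine ⟨p, ?_, hp⟩
      rintro rfl
      exact F1.ne_zero g hg (by rw [hp, map_zero])
    constructor
    · -- upper bound
      have h1 : F1.div vi ≤ ∑ l, F1.div (vl l) := by
        obtain ⟨-, f, hf, hfe⟩ := (Norm_div_eq F1 vi _).1 rfl
        obtain ⟨p, hp0, hp⟩ := hF1p f hf
        rw [← hfe, hp, hvi, Deg_monOrd_alg hExt hMon _ _ hp0]
        have h2 := monO_sum grp hp0
        have h3 : ∀ l, - monO (gw grp l) p ≤ F1.div (vl l) := by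
          intro l
          have h4 := Norm_le_div F1 (vl l) hf
          rwa [hp, hvl l, Deg_monOrd_alg hExt hMon _ _ hp0] at h4
        have h5 : ∑ l, - monO (gw grp l) p ≤ ∑ l, F1.div (vl l) :=
          Finset.sum_le_sum fun l _ => h3 l
        rw [Finset.sum_neg_distrib] at h5
        linarith
      have h6 : ∑ l, F1.div (vl l) = (N : ℤ) * (m + ∑ l, A1.div (vl l)) := by
        have h7 : ∀ l, F1.div (vl l) = (N : ℤ) * ((m : ℤ) * (if l = k then 1 else 0)
            + A1.div (vl l)) := by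
          intro l
          rw [hF1d, hMl l _ (hvl l)]
        rw [Finset.sum_congr rfl fun l _ => h7 l, ← Finset.mul_sum, Finset.sum_add_distrib,
          ← Finset.mul_sum, Finset.sum_ite_eq' Finset.univ k (fun _ => (1 : ℤ))]
        simp
      rw [h6, hF1d] at h1
      exact le_of_mul_le_mul_left h1 hN0
    · -- lower bound
      have h1 : F1.div (vl k) ≤ F1.div vi := by
        obtain ⟨-, f, hf, hfe⟩ := (Norm_div_eq F1 (vl k) _).1 rfl
        obtain ⟨p, hp0, hp⟩ := hF1p f hf
        have h2 := Norm_le_div F1 vi hf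
        rw [hp, hvi, Deg_monOrd_alg hExt hMon _ _ hp0] at h2
        rw [← hfe, hp, hvl k, Deg_monOrd_alg hExt hMon _ _ hp0]
        have h3 := monO_mono grp k hp0
        linarith
      rw [hF1d, hF1d, hMl k _ (hvl k), if_pos rfl, mul_one] at h1
      exact le_of_mul_le_mul_left h1 hN0
  have hup : M vi - 1 ≤ 0 := by
    refine le_zero_of_mul (C := ∑ l, A1.div (vl l) - A1.div vi) fun m hm => ?_
    have := (hineq m hm).1
    linarith
  have hlo : 1 - M vi ≤ 0 := by
    refine le_zero_of_mul (C := A1.div vi - A1.div (vl k)) fun m hm => ?_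
    have := (hineq m hm).2
    linarith
  omega

end CX

open Pool.Agent.Helper98.GX

theorem hPOL : StPOL := by
  intro n r grp k M hn hgrp hM hMP hMl
  exact main n r grp k M hn hgrp hM hMP hMl

end Pool.Agent.Helper60.GX
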